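import Pool.Agent.Lib_helper72.ZC.F

/-!
# MP_0646e5_lc: the cardinal 𝔷 after adding `ℵ₁` random reals to a model of MA + not CH

The ground model `V` is the universe of types (`Type`), in which Martin's axiom holds and the
continuum hypothesis fails. The forcing `RandomForcing I`, where `I` has cardinality `ℵ₁`, is the
measure algebra of `{0, 1} ^ I` (without zero, and before passing to the quotient). `Fc p φ` says
that the condition `p` forces `φ`. The theorem says that every condition forces
`ℵ₁ < 𝔷 = 2 ^ ℵ₀` (the formula `zEqC`).

Proof. Let `X` be, in `V[G]`, an infinite compact Hausdorff space with a base `c_i`, `i ∈ I`,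
`#I < 𝔠`, without non-trivially convergent sequences. Take a sequence `f : ω → X` of different
points and a scheme of infinite subsets `A_s` of `ω`, `s` a finite sequence of zeros and ones, such
that the closures of `f[A_s]` and of `f[A_t]` are disjoint for different `s`, `t` of the same length.
For every branch `y ∈ V` there is a name `x^y` of a point in the closures of all `f[A_{y|k}]`, such
that the Boolean values `e_y(i)` of `x^y ∉ c_i` are defined from the Boolean values of `f[A_s]` and finitely
many complements of the `c_i` having a common point by a recursion on `i` which uses only infima of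
fewer than `𝔠` elements. Such infima preserve the property of depending continuously on `y` off a
union of fewer than `𝔠` nowhere dense sets. Hence, by `cov(M) = 𝔠`, there are a branch `y` and
branches `y_n` converging to `y` such that `e_{y_n}(i)` converges to `e_y(i)` in measure for all `i`;
by `𝔟 = 𝔠` and the Borel-Cantelli lemma a subsequence of the points `x^{y_n}` converges to `x^y`.
-/

namespace Pool.Agent.Results.MP_0646e5_lc.RandomRealsZ

open Pool.Agent.Lib_helper27 Pool.Agent.Lib_helper27.V Pool.Agent.ZC Cardinal

/-- Assume Martin's axiom and `2 ^ ℵ₀ ≠ ℵ₁`. If `ℵ₁` random reals are added (with the measure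
algebra of `{0, 1} ^ I`, `#I = ℵ₁`), then in the extension `ℵ₁ < 𝔷 = 2 ^ ℵ₀`. -/
theorem result (hMA : MartinsAxiom) (hCH : (𝔠 : Cardinal.{0}) ≠ ℵ₁) (I : Type) (hI : #I = ℵ₁)
    (p : RandomForcing I) : Fc p zEqC :=
  main_pr hMA (lt_of_le_of_ne aleph_one_le_continuum hCH.symm) hI p

end Pool.Agent.Results.MP_0646e5_lc.RandomRealsZ
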